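import Pool.Agent.R838.KS.Stm
import Pool.Agent.H139R3.FM

/-! Project KS, package ASM: the assembly. -/

set_option autoImplicit false

namespace Pool.Agent.U394.KS

open Set Topology Pool.Agent.R838.KS

theorem countable_evFalse : {d : ℕ → Bool | ∃ N, ∀ n, N ≤ n → d n = false}.Countable := by
  classical
  refine (countable_range (fun F : Finset ℕ => fun n : ℕ => decide (n ∈ F))).mono ?_
  rintro d ⟨N, hN⟩
  refine ⟨(Finset.range N).filter (fun n => d n = true), ?_⟩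
  funext n
  by_cases h : d n = true
  · have h2 : n < N := by
      by_contra h'
      rw [hN n (not_lt.mp h')] at h
      exact absurd h (by decide)
    simp [h, h2]
  · simp [h]

theorem measurable_ite_countable {X Y : Type} [MeasurableSpace X] [MeasurableSingletonClass X]
    [MeasurableSpace Y] {A : Set X} (hA : A.Countable) (f g : X → Y) (hg : Measurable g)
    [DecidablePred (· ∈ A)] : Measurable (fun x => if x ∈ A then f x else g x) := by
  intro t ht
  have h : (fun x => if x ∈ A then f x else g x) ⁻¹' t = (A ∩ f ⁻¹' t) ∪ (Aᶜ ∩ g ⁻¹' t) := by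
    ext x; by_cases h : x ∈ A <;> simp [h]
  rw [h]
  exact ((hA.mono inter_subset_left).measurableSet).union (hA.measurableSet.compl.inter (hg ht))

theorem exists_equiv_of_countable_infinite {α β : Type} {A : Set α} {B : Set β}
    (hA : A.Countable) (hA' : A.Infinite) (hB : B.Countable) (hB' : B.Infinite) :
    Nonempty (A ≃ B) := by
  obtain ⟨i⟩ := Set.countable_infinite_iff_nonempty_denumerable.mp ⟨hA, hA'⟩
  obtain ⟨j⟩ := Set.countable_infinite_iff_nonempty_denumerable.mp ⟨hB, hB'⟩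
  exact ⟨(Denumerable.eqv A).trans (Denumerable.eqv B).symm⟩

theorem t_ASM : S_GEC → S_FIB → S_BLOW → S_MAIN := by
  classical
  intro hGEC hFIB hBLOW X _ _ E hE hEm hEc hEi hns
  obtain ⟨s, hsm, hss, hsE⟩ := Pool.Agent.H139R3.FM.feldman_moore E hE hEm hEc
  obtain ⟨P, θ, hP0, hPc, hθm, hθi, hθE, hθinv⟩ := hGEC X s hsm hss E hE hsE hns
  -- the map `Θ`
  set Θ : (ℕ → Bool) × ℕ → X := fun a => θ a.2 a.1 with hΘ
  have hΘm : Measurable Θ := measurable_from_prod_countable_left hθm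
  set PP : Set ((ℕ → Bool) × ℕ) := {a | a.1 ∈ P a.2} with hPP
  have hPPm : MeasurableSet PP := by
    have h : PP = ⋃ i, (Prod.fst ⁻¹' (P i)) ∩ (Prod.snd ⁻¹' {i}) := by
      ext a
      simp only [hPP, mem_iUnion, mem_inter_iff, mem_preimage, mem_singleton_iff]
      constructor
      · intro h
        exact ⟨a.2, h, rfl⟩
      · rintro ⟨i, h, h'⟩
        change a.1 ∈ P a.2
        rw [h']
        exact h
    rw [h]
    exact MeasurableSet.iUnion fun i =>
      (measurable_fst (hPc i).1.measurableSet).inter (measurable_snd (measurableSet_singleton i))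
  have hΘinj : InjOn Θ PP := by
    intro a ha b hb hab
    obtain ⟨h1, h2⟩ := hθi a.2 b.2 a.1 b.1 ha hb hab
    exact Prod.ext h2 h1
  set D : Set ((ℕ → Bool) × ℕ) := {a | a.1 ∈ P a.2 ∧ ∃ N, ∀ n, N ≤ n → a.1 n = false} with hD
  have hDPP : D ⊆ PP := fun a ha => ha.1
  have hDc : D.Countable := by
    refine Set.Countable.mono ?_ (countable_evFalse.prod (countable_univ (α := ℕ)))
    intro a ha
    exact ⟨ha.2, mem_univ _⟩
  have hDi : D.Infinite := by
    refine Set.infinite_of_injective_forall_mem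
      (f := fun k : ℕ => ((fun n => decide (n = k) : ℕ → Bool), (0 : ℕ))) ?_ ?_
    · intro k l hkl
      have h := congrFun (congrArg Prod.fst hkl) k
      simpa using h
    · intro k
      refine ⟨?_, k + 1, fun n hn => ?_⟩
      · change _ ∈ P 0
        rw [hP0]
        exact mem_univ _
      · have : n ≠ k := by omega
        simp [this]
  obtain ⟨w0⟩ := exists_equiv_of_countable_infinite (A := (univ : Set ℕ)) countable_univ
    Set.infinite_univ hDc hDi
  set w : ℕ → (ℕ → Bool) × ℕ := fun n => (w0 ⟨n, mem_univ n⟩ : (ℕ → Bool) × ℕ) with hw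
  have hwinj : Function.Injective w := by
    intro a b hab
    have := w0.injective (Subtype.ext hab)
    exact congrArg Subtype.val this
  have hwr : range w = D := by
    ext a
    constructor
    · rintro ⟨n, rfl⟩
      exact (w0 ⟨n, mem_univ n⟩).2
    · intro ha
      refine ⟨(w0.symm ⟨a, ha⟩).1, ?_⟩
      change ((w0 (w0.symm ⟨a, ha⟩) : D) : (ℕ → Bool) × ℕ) = a
      rw [Equiv.apply_symm_apply]
  -- the sets `Z` and `cl`
  have hsbPP : StandardBorelSpace PP := hPPm.standardBorel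
  have hemb : MeasurableEmbedding (fun a : PP => Θ a) := by
    refine Measurable.measurableEmbedding (hΘm.comp measurable_subtype_coe) ?_
    intro a b hab
    exact Subtype.ext (hΘinj a.2 b.2 hab)
  set Z : Set X := Θ '' PP with hZ
  have hZm : MeasurableSet Z := by
    have h : Z = range (fun a : PP => Θ a) := by
      rw [hZ]
      ext x
      constructor
      · rintro ⟨a, ha, rfl⟩
        exact ⟨⟨a, ha⟩, rfl⟩
      · rintro ⟨a, rfl⟩
        exact ⟨a, a.2, rfl⟩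
    rw [h]
    exact hemb.measurableSet_range
  have hZinv : ∀ x y, x ∈ Z → E x y → y ∈ Z := by
    rintro _ z ⟨a, ha, rfl⟩ hz
    obtain ⟨k, y, hy, hyz⟩ := hθinv a.2 a.1 z ha hz
    exact ⟨(y, k), hy, hyz⟩
  have hZinv' : ∀ x y, x ∉ Z → E x y → y ∉ Z := fun x y hx hxy hy => hx (hZinv y x hy (hE.symm hxy))
  set cl : Set X := Θ '' D with hcl
  have hclZ : cl ⊆ Z := image_mono hDPP
  have hclc : cl.Countable := hDc.image Θ
  have hcli : cl.Infinite := hDi.image (hΘinj.mono hDPP)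
  have hclE : ∀ x y, x ∈ cl → y ∈ cl → E x y := by
    rintro _ _ ⟨a, ha, rfl⟩ ⟨b, hb, rfl⟩
    obtain ⟨N, hN⟩ := ha.2
    obtain ⟨M, hM⟩ := hb.2
    refine (hθE a.2 b.2 a.1 b.1).mpr ⟨max N M, fun n hn => ?_⟩
    rw [hN n (le_trans (le_max_left _ _) hn), hM n (le_trans (le_max_right _ _) hn)]
  have hclinv : ∀ x y, x ∈ cl → E x y → y ∈ cl := by
    rintro _ y ⟨a, ha, rfl⟩ hxy
    obtain ⟨b, hb, rfl⟩ := hZinv _ y (hclZ ⟨a, ha, rfl⟩) hxy
    refine ⟨b, ⟨hb, ?_⟩, rfl⟩
    obtain ⟨N, hN⟩ := ha.2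
    obtain ⟨M, hM⟩ := (hθE a.2 b.2 a.1 b.1).mp hxy
    refine ⟨max N M, fun n hn => ?_⟩
    rw [← hM n (le_trans (le_max_right _ _) hn), hN n (le_trans (le_max_left _ _) hn)]
  -- the complement
  have hsX' : ∀ n (x : (Zᶜ : Set X)), s n x ∈ Zᶜ := fun n x =>
    hZinv' x _ x.2 ((hsE _ _).mpr ⟨n, rfl⟩)
  have hsb' : StandardBorelSpace (Zᶜ : Set X) := hZm.compl.standardBorel
  set s' : ℕ → (Zᶜ : Set X) → (Zᶜ : Set X) := fun n x => ⟨s n x, hsX' n x⟩ with hs'
  have hs'm : ∀ n, Measurable (s' n) := fun n =>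
    Measurable.subtype_mk ((hsm n).comp measurable_subtype_coe)
  have hs's : ∀ n x, s' n (s' n x) = x := fun n x => Subtype.ext (hss n x)
  have hE' : Equivalence (fun x y : (Zᶜ : Set X) => E x y) :=
    ⟨fun x => hE.refl _, fun h => hE.symm h, fun h h' => hE.trans h h'⟩
  have hs'E : ∀ x y : (Zᶜ : Set X), E x y ↔ ∃ n, s' n x = y := by
    intro x y
    rw [hsE]
    constructor
    · rintro ⟨n, hn⟩
      exact ⟨n, Subtype.ext hn⟩
    · rintro ⟨n, hn⟩
      exact ⟨n, congrArg Subtype.val hn⟩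
  have hi' : ∀ x : (Zᶜ : Set X), {y : (Zᶜ : Set X) | E x y}.Infinite := by
    intro x hfin
    apply hEi x
    refine (hfin.image Subtype.val).subset ?_
    intro y hy
    exact ⟨⟨y, hZinv' x y x.2 hy⟩, hy, rfl⟩
  obtain ⟨C, iC1, iC2, iC3, iC4, iC5, ρ, κ', Λ, hρm, hκm, hκi, hΛc, hl, hcross, hrem, hseq, hrel⟩ :=
    hFIB (Zᶜ : Set X) s' hs'm hs's _ hE' hs'E hi'
  -- the remainder
  set Rem : Set (ℕ × C) := {r | (∃ l ∈ Λ, l r.1 = r.2) ∧ ∀ x, ρ x = r.1 → κ' x ≠ r.2} with hRem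
  have hRemc : Rem.Countable := by
    have h : Rem ⊆ ⋃ n, (fun c : C => (n, c)) ''
        {c | (∃ l ∈ Λ, l n = c) ∧ ∀ x, ρ x = n → κ' x ≠ c} := by
      rintro ⟨n, c⟩ hr
      exact mem_iUnion.mpr ⟨n, c, hr, rfl⟩
    exact (countable_iUnion fun n => (hrem n).1.image _).mono h
  have hRemi : Rem.Infinite := by
    choose c hc using fun n => (hrem n).2
    exact Set.infinite_of_injective_forall_mem (f := fun n => (n, c n))
      (fun a b hab => congrArg Prod.fst hab) (fun n => hc n)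
  obtain ⟨e⟩ := exists_equiv_of_countable_infinite hclc hcli hRemc hRemi
  obtain ⟨c₀, ⟨l₀, hl₀, -⟩, -⟩ := (hrem 0).2
  have hCne : Nonempty C := ⟨c₀⟩
  -- extensions of the maps
  obtain ⟨nav0, hnav0m, hnav0⟩ := hemb.exists_measurable_extend
    (measurable_subtype_coe (p := fun a => a ∈ PP)) (fun _ => ⟨w 0⟩)
  obtain ⟨ρ0, hρ0m, hρ0⟩ := (MeasurableEmbedding.subtype_coe hZm.compl).exists_measurable_extend
    hρm (fun _ => ⟨0⟩)
  obtain ⟨κ0, hκ0m, hκ0⟩ := (MeasurableEmbedding.subtype_coe hZm.compl).exists_measurable_extend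
    hκm (fun _ => hCne)
  have hnav0' : ∀ a ∈ PP, nav0 (Θ a) = a := fun a ha => congrFun hnav0 ⟨a, ha⟩
  have hρ0' : ∀ x : (Zᶜ : Set X), ρ0 x = ρ x := fun x => congrFun hρ0 x
  have hκ0' : ∀ x : (Zᶜ : Set X), κ0 x = κ' x := fun x => congrFun hκ0 x
  set ee : X → ℕ × C := fun x => if h : x ∈ cl then (e ⟨x, h⟩ : ℕ × C) else (0, c₀) with hee
  have hee' : ∀ x (h : x ∈ cl), ee x = (e ⟨x, h⟩ : ℕ × C) := by
    intro x h
    simp only [hee, dif_pos h]
  have heemem : ∀ x, x ∈ cl → ee x ∈ Rem := by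
    intro x h
    rw [hee' x h]
    exact (e ⟨x, h⟩).2
  have heeinj : ∀ x y, x ∈ cl → y ∈ cl → ee x = ee y → x = y := by
    intro x y hx hy hxy
    rw [hee' x hx, hee' y hy] at hxy
    have := e.injective (Subtype.ext hxy)
    exact congrArg Subtype.val this
  have heesurj : ∀ r ∈ Rem, ∃ x ∈ cl, ee x = r := by
    intro r hr
    refine ⟨(e.symm ⟨r, hr⟩ : cl), (e.symm ⟨r, hr⟩ : cl).2, ?_⟩
    rw [hee' _ (e.symm ⟨r, hr⟩ : cl).2]
    change ((e (e.symm ⟨r, hr⟩) : Rem) : ℕ × C) = r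
    rw [Equiv.apply_symm_apply]
  set fib : X → ℕ := fun x => if x ∈ cl then (ee x).1 + 1 else if x ∈ Z then 0 else ρ0 x + 1
    with hfib
  set κ : X → C := fun x => if x ∈ cl then (ee x).2 else κ0 x with hκ
  set nav : X → (ℕ → Bool) × ℕ := fun x => if fib x = 0 then nav0 x else w (fib x - 1) with hnav
  have hfibm : Measurable fib :=
    measurable_ite_countable hclc _ _ (Measurable.ite hZm measurable_const
      ((measurable_of_countable fun n : ℕ => n + 1).comp hρ0m))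
  have hκm' : Measurable κ := measurable_ite_countable hclc _ _ hκ0m
  have hnavm : Measurable nav :=
    Measurable.ite (hfibm (measurableSet_singleton 0)) hnav0m
      ((measurable_of_countable fun n : ℕ => w (n - 1)).comp hfibm)
  -- case analysis
  have hfib0 : ∀ x, fib x = 0 ↔ x ∈ Z ∧ x ∉ cl := by
    intro x
    simp only [hfib]
    split_ifs with h1 h2
    · simp [h1]
    · simp [h1, h2]
    · simp [h2]
  have hfibcl : ∀ x, x ∈ cl → fib x = (ee x).1 + 1 := by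
    intro x h
    simp only [hfib, if_pos h]
  have hκcl : ∀ x, x ∈ cl → κ x = (ee x).2 := by
    intro x h
    simp only [hκ, if_pos h]
  have hfibZ : ∀ x : (Zᶜ : Set X), fib x = ρ x + 1 := by
    intro x
    have h1 : (x : X) ∉ Z := x.2
    have h2 : (x : X) ∉ cl := fun h => h1 (hclZ h)
    simp only [hfib, if_neg h1, if_neg h2, hρ0']
  have hκZ : ∀ x : (Zᶜ : Set X), κ x = κ' x := by
    intro x
    have h2 : (x : X) ∉ cl := fun h => x.2 (hclZ h)
    simp only [hκ, if_neg h2, hκ0']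
  have hcases : ∀ x n, fib x = n + 1 → (x ∈ cl ∧ (ee x).1 = n) ∨
      ∃ x' : (Zᶜ : Set X), (x' : X) = x ∧ ρ x' = n := by
    intro x n hx
    by_cases h1 : x ∈ cl
    · left
      refine ⟨h1, ?_⟩
      have := hfibcl x h1
      omega
    · right
      by_cases h2 : x ∈ Z
      · have := (hfib0 x).mpr ⟨h2, h1⟩
        omega
      · refine ⟨⟨x, h2⟩, rfl, ?_⟩
        have := hfibZ ⟨x, h2⟩
        change fib x = _ at this
        omega
  have hinj : ∀ x y n, fib x = n + 1 → fib y = n + 1 → κ x = κ y → x = y := by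
    intro x y n hx hy hxy
    rcases hcases x n hx with ⟨h1, h2⟩ | ⟨x', rfl, h2⟩ <;>
      rcases hcases y n hy with ⟨h3, h4⟩ | ⟨y', rfl, h4⟩
    · rw [hκcl x h1, hκcl y h3] at hxy
      exact heeinj x y h1 h3 (Prod.ext (h2.trans h4.symm) hxy)
    · exfalso
      rw [hκcl x h1, hκZ] at hxy
      exact (heemem x h1).2 y' (h4.trans h2.symm) hxy.symm
    · exfalso
      rw [hκcl y h3, hκZ] at hxy
      exact (heemem y h3).2 x' (h2.trans h4.symm) hxy
    · rw [hκZ, hκZ] at hxy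
      rw [hκi hxy]
  -- the pieces of the relation
  have hclcount : Countable cl := hclc.to_subtype
  let I : Type := (ℕ × ℕ × ℕ) ⊕ (cl × cl)
  have hIne : Nonempty I := ⟨Sum.inl (0, 0, 0)⟩
  obtain ⟨σ, hσ⟩ := exists_surjective_nat I
  let SI : I → Set (X × X) := fun i => match i with
    | Sum.inl (n, m, j) => {p | ∃ x : (Zᶜ : Set X), ρ x = n ∧ ρ (s' j x) = m ∧
        p = ((x : X), (s' j x : X))}
    | Sum.inr (a, b) => {((a : X), (b : X))}
  refine hBLOW X E hE C P w fib nav κ Λ (fun k => SI (σ k)) hP0 hPc hwinj hwr hfibm hnavm hκm'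
    hΛc ⟨l₀, hl₀⟩ ?_ ?_ ?_ hinj ?_ ?_ ?_ ?_ ?_ ?_ ?_ ?_
  · -- H9
    intro x n hx
    refine ⟨?_, ?_⟩
    · simp only [hnav]
      rw [if_neg (by omega), hx]
      rfl
    · rcases hcases x n hx with ⟨h1, h2⟩ | ⟨x', rfl, h2⟩
      · obtain ⟨l, hl1, hl2⟩ := (heemem x h1).1
        refine ⟨l, hl1, ?_⟩
        rw [hκcl x h1, ← hl2, h2]
      · obtain ⟨l, hl1, hl2⟩ := hl x'
        refine ⟨l, hl1, ?_⟩
        rw [hκZ, ← hl2, h2]
  · -- H10
    intro x hx
    obtain ⟨⟨a, ha, hax⟩, h2⟩ := (hfib0 x).mp hx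
    have h3 : nav x = a := by
      simp only [hnav]
      rw [if_pos hx, ← hax, hnav0' a ha]
    rw [h3, hwr]
    exact ⟨ha, fun haD => h2 ⟨a, haD, hax⟩⟩
  · -- H11
    intro x y hx hy hxy
    obtain ⟨⟨a, ha, hax⟩, -⟩ := (hfib0 x).mp hx
    obtain ⟨⟨b, hb, hby⟩, -⟩ := (hfib0 y).mp hy
    simp only [hnav] at hxy
    rw [if_pos hx, if_pos hy, ← hax, ← hby, hnav0' a ha, hnav0' b hb] at hxy
    rw [← hax, ← hby, hxy]
  · -- H13
    intro a ha haw
    rw [hwr] at haw
    have h1 : fib (Θ a) = 0 := by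
      refine (hfib0 _).mpr ⟨⟨a, ha, rfl⟩, ?_⟩
      rintro ⟨b, hb, hba⟩
      exact haw (hΘinj (hDPP hb) ha hba ▸ hb)
    refine ⟨Θ a, h1, ?_⟩
    simp only [hnav]
    rw [if_pos h1, hnav0' a ha]
  · -- H14
    intro n l hlΛ
    by_cases h : ∃ x, ρ x = n ∧ κ' x = l n
    · obtain ⟨x, hx1, hx2⟩ := h
      exact ⟨x, by rw [hfibZ, hx1], by rw [hκZ, hx2]⟩
    · push Not at h
      obtain ⟨x, hx1, hx2⟩ := heesurj (n, l n) ⟨⟨l, hlΛ, rfl⟩, h⟩
      exact ⟨x, by rw [hfibcl x hx1, hx2], by rw [hκcl x hx1, hx2]⟩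
  · -- H15
    intro x y hx hy
    obtain ⟨⟨a, ha, hax⟩, -⟩ := (hfib0 x).mp hx
    obtain ⟨⟨b, hb, hby⟩, -⟩ := (hfib0 y).mp hy
    have h3 : nav x = a := by
      simp only [hnav]
      rw [if_pos hx, ← hax, hnav0' a ha]
    have h4 : nav y = b := by
      simp only [hnav]
      rw [if_pos hy, ← hby, hnav0' b hb]
    rw [h3, h4, ← hax, ← hby]
    exact hθE a.2 b.2 a.1 b.1
  · -- H16
    intro x y hx hy hxy
    obtain ⟨h1, h2⟩ := (hfib0 x).mp hx
    apply hy
    refine (hfib0 y).mpr ⟨hZinv x y h1 hxy, fun h => h2 (hclinv y x h (hE.symm hxy))⟩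
  · -- H17
    intro l hlΛ x y n m hx hy hxl hyl
    rcases hcases x n hx with ⟨h1, h2⟩ | ⟨x', rfl, h2⟩
    · rcases hcases y m hy with ⟨h3, h4⟩ | ⟨y', rfl, h4⟩
      · exact hclE x y h1 h3
      · rw [hκZ] at hyl
        obtain ⟨z, hz1, hz2, hz3⟩ := hseq l hlΛ m n y' h4 hyl
        have h5 : (z : X) = x := by
          refine hinj z x n (by rw [hfibZ, hz2]) hx ?_
          rw [hκZ, hz3, hxl]
        rw [← h5]
        exact hE.symm hz1
    · rw [hκZ] at hxl
      obtain ⟨z, hz1, hz2, hz3⟩ := hseq l hlΛ n m x' h2 hxl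
      have h5 : (z : X) = y := by
        refine hinj z y m (by rw [hfibZ, hz2]) hy ?_
        rw [hκZ, hz3, hyl]
      rw [← h5]
      exact hz1
  · -- H18
    intro x y n hx hxy
    rcases hcases x n hx with ⟨h1, h2⟩ | ⟨x', rfl, h2⟩
    · obtain ⟨k, hk⟩ := hσ (Sum.inr (⟨x, h1⟩, ⟨y, hclinv x y h1 hxy⟩))
      refine ⟨k, ?_⟩
      change (x, y) ∈ SI (σ k)
      rw [hk]
      exact rfl
    · have hyZ : y ∈ Zᶜ := hZinv' x' y x'.2 hxy
      obtain ⟨j, hj⟩ := (hs'E x' ⟨y, hyZ⟩).mp hxy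
      obtain ⟨k, hk⟩ := hσ (Sum.inl (ρ x', ρ (s' j x'), j))
      refine ⟨k, ?_⟩
      change ((x' : X), y) ∈ SI (σ k)
      rw [hk]
      refine ⟨x', rfl, rfl, ?_⟩
      rw [hj]
  · -- H19
    intro k
    change ∃ n m, (∀ p ∈ SI (σ k), fib p.1 = n + 1 ∧ fib p.2 = m + 1) ∧
      ∀ x y, fib x = n + 1 → fib y = m + 1 →
        (κ x, κ y) ∈ closure ((fun p : X × X => (κ p.1, κ p.2)) '' SI (σ k)) → E x y
    rcases hk : σ k with ⟨n, m, j⟩ | ⟨a, b⟩
    · refine ⟨n, m, ?_, ?_⟩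
      · rintro _ ⟨x, hx1, hx2, rfl⟩
        refine ⟨?_, ?_⟩
        · show fib (x : X) = n + 1
          rw [hfibZ, hx1]
        · show fib ((s' j x : _) : X) = m + 1
          rw [hfibZ, hx2]
      · intro x y hx hy hcl
        have hsub : (fun p : X × X => (κ p.1, κ p.2)) '' SI (Sum.inl (n, m, j)) ⊆
            {p : C × C | ∃ x, ρ x = n ∧ ρ (s' j x) = m ∧ p = (κ' x, κ' (s' j x))} := by
          rintro _ ⟨_, ⟨z, hz1, hz2, rfl⟩, rfl⟩
          exact ⟨z, hz1, hz2, by simp only [hκZ]⟩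
        obtain ⟨h5, h6⟩ := hrel n m j (κ x) (κ y) (closure_mono hsub hcl)
        rcases hcases x n hx with ⟨h1, h2⟩ | ⟨x', rfl, h2⟩
        · rcases hcases y m hy with ⟨h3, h4⟩ | ⟨y', rfl, h4⟩
          · exact hclE x y h1 h3
          · obtain ⟨h7, h8⟩ := h6 y' h4 (hκZ y').symm
            have h9 : ((s' j y' : (Zᶜ : Set X)) : X) = x := by
              refine hinj _ x n (by rw [hfibZ, h8]) hx ?_
              rw [hκZ, h7]
            rw [← h9]
            exact hE.symm ((hs'E y' (s' j y')).mpr ⟨j, rfl⟩)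
        · obtain ⟨h7, h8⟩ := h5 x' h2 (hκZ x').symm
          have h9 : ((s' j x' : (Zᶜ : Set X)) : X) = y := by
            refine hinj _ y m (by rw [hfibZ, h8]) hy ?_
            rw [hκZ, h7]
          rw [← h9]
          exact (hs'E x' (s' j x')).mpr ⟨j, rfl⟩
    · refine ⟨(ee a).1, (ee b).1, ?_, ?_⟩
      · intro p hp
        have hp' : p = ((a : X), (b : X)) := hp
        rw [hp']
        exact ⟨hfibcl _ a.2, hfibcl _ b.2⟩
      · intro x y hx hy hcl
        have hsing : (fun p : X × X => (κ p.1, κ p.2)) '' SI (Sum.inr (a, b)) =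
            {(κ a, κ b)} := by
          change (fun p : X × X => (κ p.1, κ p.2)) '' {((a : X), (b : X))} = _
          rw [image_singleton]
        rw [hsing, closure_singleton, mem_singleton_iff, Prod.mk.injEq] at hcl
        have h7 : x = a := hinj x a _ hx (hfibcl _ a.2) hcl.1
        have h8 : y = b := hinj y b _ hy (hfibcl _ b.2) hcl.2
        rw [h7, h8]
        exact hclE a b a.2 b.2
  · -- H20
    intro x n m hx
    rcases hcases x n hx with ⟨h1, h2⟩ | ⟨x', rfl, h2⟩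
    · obtain ⟨c, hc⟩ := (hrem m).2
      obtain ⟨y, hy1, hy2⟩ := heesurj (m, c) hc
      exact ⟨y, hclE x y h1 hy1, by rw [hfibcl y hy1, hy2]⟩
    · obtain ⟨y, hy1, hy2⟩ := hcross m x'
      exact ⟨y, hy1, by rw [hfibZ, hy2]⟩

end Pool.Agent.U394.KS
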